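import Pool.Agent.X245.ABA.Order
import Pool.Agent.X245.Util
import Pool.Agent.H614R2.DPO.TG2
import Pool.Agent.H614R2.DPO.TP1

set_option autoImplicit false

/-!
# ABA-free hypergraphs: the algorithm
-/

namespace Pool.Agent.X245.ABA

open Relation Pool.Agent.NPC Pool.Agent.H614R2.DPO

/-- Instances: the list `x.1` of the vertices, without repetitions, and the list `x.2` of the
hyperedges, each given by the list of its vertices. The question is whether the hypergraph is
ABA-free. -/
def ABA (x : List ℕ × List (List ℕ)) : Prop :=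
  x.1.Nodup ∧ (∀ H ∈ x.2, ∀ v ∈ H, v ∈ x.1) ∧ ABAFree x.1 x.2

/-- test for `Sep` -/
def sepB (H L : List ℕ) (p : ℕ × ℕ) : Bool :=
  decide (p.1 ∈ H) && (!decide (p.1 ∈ L) && (decide (p.2 ∈ L) && !decide (p.2 ∈ H)))

theorem sepB_iff {H L : List ℕ} {p : ℕ × ℕ} : sepB H L p = true ↔ Sep H L p := by
  unfold sepB Sep
  simp

/-- test for `Step` -/
def stepB (E : List (List ℕ)) (p q : ℕ × ℕ) : Bool :=
  E.any fun H => E.any fun L => sepB H L p && sepB H L q

theorem stepB_iff {E : List (List ℕ)} {p q : ℕ × ℕ} : stepB E p q = true ↔ Step E p q := by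
  unfold stepB Step
  simp only [List.any_eq_true, Bool.and_eq_true, sepB_iff]

/-- all pairs -/
def prods (V : List ℕ) : List (ℕ × ℕ) := V.flatMap fun a => V.map fun b => (a, b)

theorem mem_prods {V : List ℕ} {p : ℕ × ℕ} : p ∈ prods V ↔ p.1 ∈ V ∧ p.2 ∈ V := by
  unfold prods
  simp only [List.mem_flatMap, List.mem_map]
  constructor
  · rintro ⟨a, ha, b, hb, rfl⟩
    exact ⟨ha, hb⟩
  · rintro ⟨h1, h2⟩
    exact ⟨p.1, h1, p.2, h2, rfl⟩

/-- the algorithm -/
def dec (x : List ℕ × List (List ℕ)) : Bool :=
  (x.1.all fun v => decide ((x.1.filter fun w => decide (w = v)).length ≤ 1)) &&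
    ((x.2.all fun H => H.all fun v => decide (v ∈ x.1)) &&
      (prods x.1).all fun p => !(stepB x.2 p p) ||
        !decide ((p.2, p.1) ∈ reachG (stepB x.2) (prods x.1) p))

theorem nodup_iff (V : List ℕ) :
    (V.all fun v => decide ((V.filter fun w => decide (w = v)).length ≤ 1)) = true ↔ V.Nodup := by
  rw [List.nodup_iff_count_le_one, List.all_eq_true]
  have h : ∀ v, (V.filter fun w => decide (w = v)).length = V.count v := by
    intro v
    rw [List.count, List.countP_eq_length_filter]
    congr 1
  constructor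
  · intro h1 v
    by_cases hv : v ∈ V
    · have := h1 v hv
      rw [decide_eq_true_eq, h v] at this
      exact this
    · rw [List.count_eq_zero_of_not_mem hv]
      omega
  · intro h1 v _
    rw [decide_eq_true_eq, h v]
    exact h1 v

theorem dec_iff (x : List ℕ × List (List ℕ)) : dec x = true ↔ ABA x := by
  unfold dec ABA
  rw [Bool.and_eq_true, Bool.and_eq_true, nodup_iff]
  refine and_congr_right fun _ => ?_
  have h1 : (x.2.all fun H => H.all fun v => decide (v ∈ x.1)) = true ↔
      ∀ H ∈ x.2, ∀ v ∈ H, v ∈ x.1 := by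
    simp [List.all_eq_true]
  rw [h1]
  refine and_congr_right fun hE => ?_
  rw [free_iff hE, List.all_eq_true]
  have hrtg : ∀ p q : ℕ × ℕ, ReflTransGen (fun a b => stepB x.2 a b = true ∧ b ∈ prods x.1) p q ↔
      ReflTransGen (Step x.2) p q := by
    intro p q
    constructor
    · intro h
      induction h with
      | refl => exact .refl
      | tail _ h ih => exact ih.tail (stepB_iff.1 h.1)
    · intro h
      induction h with
      | refl => exact .refl
      | tail _ h ih =>
        refine ih.tail ⟨stepB_iff.2 h, ?_⟩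
        obtain ⟨H, hH, L, hL, -, h3, -, h4, -⟩ := h
        exact mem_prods.2 ⟨hE H hH _ h3, hE L hL _ h4⟩
  constructor
  · intro h a b hab hrev
    have hm : (a, b) ∈ prods x.1 := by
      obtain ⟨H, hH, L, hL, -, h3, -, h4, -⟩ := hab
      exact mem_prods.2 ⟨hE H hH _ h3, hE L hL _ h4⟩
    have h2 := h (a, b) hm
    rw [stepB_iff.2 hab] at h2
    simp only [Bool.not_true, Bool.false_or, Bool.not_eq_true', decide_eq_false_iff_not] at h2
    exact h2 (mem_reachG.2 ⟨hm, (hrtg _ _).2 hrev⟩)
  · intro h p hp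
    by_cases hs : stepB x.2 p p = true
    · rw [hs]
      simp only [Bool.not_true, Bool.false_or, Bool.not_eq_true', decide_eq_false_iff_not]
      intro hr
      exact h p.1 p.2 (stepB_iff.1 hs) ((hrtg _ _).1 (mem_reachG.1 hr).2)
    · rw [Bool.not_eq_true] at hs
      rw [hs]
      rfl

theorem poly_sepB {α : Type} [TEnc α] {H L : α → List ℕ} {p : α → ℕ × ℕ} (hH : NPC.Poly H)
    (hL : NPC.Poly L) (hp : NPC.Poly p) : NPC.Poly (fun a => sepB (H a) (L a) (p a)) := by
  unfold sepB
  fun_prop

attribute [fun_prop] poly_sepB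
attribute [local irreducible] sepB

theorem poly_stepB {α : Type} [TEnc α] {E : α → List (List ℕ)} {p q : α → ℕ × ℕ}
    (hE : NPC.Poly E) (hp : NPC.Poly p) (hq : NPC.Poly q) :
    NPC.Poly (fun a => stepB (E a) (p a) (q a)) := by
  unfold stepB
  fun_prop

attribute [fun_prop] poly_stepB
attribute [local irreducible] stepB

theorem poly_prods {α : Type} [TEnc α] {V : α → List ℕ} (hV : NPC.Poly V) :
    NPC.Poly (fun a => prods (V a)) := by
  unfold prods
  fun_prop

attribute [fun_prop] poly_prods
attribute [local irreducible] prods reachG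

theorem dec_poly : NPC.Poly dec := by
  unfold dec
  have h1 : NPC.Poly (fun y : (List ℕ × List (List ℕ)) × (ℕ × ℕ) =>
      reachG (stepB y.1.2) (prods y.1.1) y.2) :=
    poly_reachG (R := fun y : (List ℕ × List (List ℕ)) × (ℕ × ℕ) => stepB y.1.2)
      (by fun_prop) (by fun_prop) (by fun_prop)
  fun_prop

/-- ABA-freeness is in P. -/
theorem inPP_ABA : InPP ABA := inPP_of dec_poly fun x => (dec_iff x).symm

end Pool.Agent.X245.ABA
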