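import Mathlib

set_option autoImplicit false

/-!
# ABA-free hypergraphs: implication classes
-/

namespace Pool.Agent.X245.ABA

open Relation

/-- The first member of `p` is in `H` but not in `L`, and the second is in `L` but not in `H`. -/
def Sep (H L : List ℕ) (p : ℕ × ℕ) : Prop := p.1 ∈ H ∧ p.1 ∉ L ∧ p.2 ∈ L ∧ p.2 ∉ H

/-- Two hyperedges separate `p` and `q` in the same way. -/
def Step (E : List (List ℕ)) (p q : ℕ × ℕ) : Prop :=
  ∃ H ∈ E, ∃ L ∈ E, Sep H L p ∧ Sep H L q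

theorem Step.symm {E : List (List ℕ)} {p q : ℕ × ℕ} (h : Step E p q) : Step E q p := by
  obtain ⟨H, hH, L, hL, h1, h2⟩ := h
  exact ⟨H, hH, L, hL, h2, h1⟩

theorem Step.swap {E : List (List ℕ)} {p q : ℕ × ℕ} (h : Step E p q) :
    Step E p.swap q.swap := by
  obtain ⟨H, hH, L, hL, ⟨h1, h2, h3, h4⟩, h5, h6, h7, h8⟩ := h
  exact ⟨L, hL, H, hH, ⟨h3, h4, h1, h2⟩, h7, h8, h5, h6⟩

theorem Step.refl_left {E : List (List ℕ)} {p q : ℕ × ℕ} (h : Step E p q) : Step E p p := by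
  obtain ⟨H, hH, L, hL, h1, h2⟩ := h
  exact ⟨H, hH, L, hL, h1, h1⟩

section

variable {E : List (List ℕ)} {P : ℕ × ℕ → Prop}

/-- The triangle lemma. -/
theorem tri (hP : ∀ p q, Step E p q → P p → P q) (hA : ∀ a b, P (a, b) → ¬ P (b, a))
    (hI : ∀ p, P p → Step E p p) {a b c a' b' : ℕ} (hab : P (a, b)) (hbc : P (b, c))
    (hca : P (c, a)) (hs : Step E (a, b) (a', b')) :
    Step E (b, c) (b', c) ∧ Step E (c, a) (c, a') := by
  have nca : ∀ H ∈ E, ∀ L ∈ E, a ∈ H → b ∉ H → c ∉ H → a ∉ L → b ∈ L → c ∈ L → False := by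
    intro H hH L hL h1 h2 h3 h4 h5 h6
    exact hA c a hca (hP _ _ ⟨H, hH, L, hL, ⟨h1, h4, h5, h2⟩, h1, h4, h6, h3⟩ hab)
  have ncb : ∀ H ∈ E, ∀ L ∈ E, b ∈ H → a ∉ H → c ∉ H → b ∉ L → a ∈ L → c ∈ L → False := by
    intro H hH L hL h1 h2 h3 h4 h5 h6
    exact hA a b hab (hP _ _ ⟨H, hH, L, hL, ⟨h1, h4, h6, h3⟩, h1, h4, h5, h2⟩ hbc)
  have ncc : ∀ H ∈ E, ∀ L ∈ E, c ∈ H → a ∉ H → b ∉ H → c ∉ L → a ∈ L → b ∈ L → False := by
    intro H hH L hL h1 h2 h3 h4 h5 h6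
    exact hA b c hbc (hP _ _ ⟨H, hH, L, hL, ⟨h1, h4, h5, h2⟩, h1, h4, h6, h3⟩ hca)
  have hab' : ((∃ A ∈ E, a ∈ A ∧ b ∉ A ∧ c ∉ A) ∧ ∃ B ∈ E, b ∈ B ∧ a ∉ B ∧ c ∉ B) ∨
      ((∃ A ∈ E, a ∈ A ∧ b ∉ A ∧ c ∈ A) ∧ ∃ B ∈ E, b ∈ B ∧ a ∉ B ∧ c ∈ B) := by
    obtain ⟨H, hH, L, hL, ⟨h1, h2, h3, h4⟩, -⟩ := hI _ hab
    simp only at h1 h2 h3 h4
    by_cases h5 : c ∈ H <;> by_cases h6 : c ∈ L
    · exact Or.inr ⟨⟨H, hH, h1, h4, h5⟩, L, hL, h3, h2, h6⟩
    · exact (ncb L hL H hH h3 h2 h6 h4 h1 h5).elim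
    · exact (nca H hH L hL h1 h4 h5 h2 h3 h6).elim
    · exact Or.inl ⟨⟨H, hH, h1, h4, h5⟩, L, hL, h3, h2, h6⟩
  have hbc' : ((∃ A ∈ E, b ∈ A ∧ c ∉ A ∧ a ∉ A) ∧ ∃ B ∈ E, c ∈ B ∧ b ∉ B ∧ a ∉ B) ∨
      ((∃ A ∈ E, b ∈ A ∧ c ∉ A ∧ a ∈ A) ∧ ∃ B ∈ E, c ∈ B ∧ b ∉ B ∧ a ∈ B) := by
    obtain ⟨H, hH, L, hL, ⟨h1, h2, h3, h4⟩, -⟩ := hI _ hbc
    simp only at h1 h2 h3 h4
    by_cases h5 : a ∈ H <;> by_cases h6 : a ∈ L
    · exact Or.inr ⟨⟨H, hH, h1, h4, h5⟩, L, hL, h3, h2, h6⟩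
    · exact (ncc L hL H hH h3 h6 h2 h4 h5 h1).elim
    · exact (ncb H hH L hL h1 h5 h4 h2 h6 h3).elim
    · exact Or.inl ⟨⟨H, hH, h1, h4, h5⟩, L, hL, h3, h2, h6⟩
  obtain ⟨H, hH, L, hL, ⟨h1, h2, h3, h4⟩, h5, h6, h7, h8⟩ := hs
  simp only at h1 h2 h3 h4 h5 h6 h7 h8
  -- the pairs with one new member
  have pab : P (a', b) := hP _ _ ⟨H, hH, L, hL, ⟨h1, h2, h3, h4⟩, h5, h6, h3, h4⟩ hab
  have pab' : P (a, b') := hP _ _ ⟨H, hH, L, hL, ⟨h1, h2, h3, h4⟩, h1, h2, h7, h8⟩ hab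
  rcases hab' with ⟨⟨A, hAE, a1, a2, a3⟩, B, hBE, b1, b2, b3⟩ | ⟨⟨A, hAE, a1, a2, a3⟩, B, hBE, b1, b2, b3⟩
  · -- single members
    rcases hbc' with ⟨-, C, hCE, c1, c2, c3⟩ | ⟨-, C, hCE, c1, c2, c3⟩
    swap
    · exact (ncb B hBE C hCE b1 b2 b3 c2 c3 c1).elim
    have hcH : c ∉ H := fun h => ncb B hBE H hH b1 b2 b3 h4 h1 h
    have hcL : c ∉ L := fun h => nca A hAE L hL a1 a2 a3 h2 h3 h
    have ha' : a' ∉ C := fun h =>
      hA a' b pab (hP _ _ ⟨L, hL, C, hCE, ⟨h3, c2, c1, hcL⟩, h3, c2, h, h6⟩ hbc)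
    have hb' : b' ∉ C := fun h =>
      hA c a hca (hP _ _ ⟨H, hH, C, hCE, ⟨h1, c3, h, h8⟩, h1, c3, c1, hcH⟩ pab')
    exact ⟨⟨L, hL, C, hCE, ⟨h3, c2, c1, hcL⟩, h7, hb', c1, hcL⟩,
      ⟨C, hCE, H, hH, ⟨c1, hcH, h1, c3⟩, c1, hcH, h5, ha'⟩⟩
  · -- two members
    rcases hbc' with ⟨⟨C, hCE, c1, c2, c3⟩, -⟩ | ⟨⟨C, hCE, c1, c2, c3⟩, -⟩
    · exact (ncb C hCE A hAE c1 c3 c2 a2 a1 a3).elim
    have hcH : c ∈ H := by
      by_contra h
      exact nca H hH B hBE h1 h4 h b2 b1 b3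
    have hcL : c ∈ L := by
      by_contra h
      exact ncb L hL A hAE h3 h2 h a2 a1 a3
    have ha' : a' ∈ C := by
      by_contra h
      exact hA b c hbc (hP _ _ ⟨H, hH, C, hCE, ⟨h5, h, c1, h4⟩, hcH, c2, c1, h4⟩ pab)
    have hb' : b' ∈ C := by
      by_contra h
      exact hA a b' pab' (hP _ _ ⟨L, hL, C, hCE, ⟨hcL, c2, c3, h2⟩, h7, h, c3, h2⟩ hca)
    exact ⟨⟨C, hCE, H, hH, ⟨c1, h4, hcH, c2⟩, hb', h8, hcH, c2⟩,
      ⟨L, hL, C, hCE, ⟨hcL, c2, c3, h2⟩, hcL, c2, ha', h6⟩⟩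

/-- The triangle lemma for classes. -/
theorem tri_class (hP : ∀ p q, Step E p q → P p → P q) (hA : ∀ a b, P (a, b) → ¬ P (b, a))
    (hI : ∀ p, P p → Step E p p) {a b c : ℕ} (hab : P (a, b)) (hbc : P (b, c))
    (hca : P (c, a)) {q : ℕ × ℕ} (hs : ReflTransGen (Step E) (a, b) q) :
    (P q ∧ P (q.2, c) ∧ P (c, q.1)) ∧ ReflTransGen (Step E) (b, c) (q.2, c) ∧
      ReflTransGen (Step E) (c, a) (c, q.1) := by
  induction hs with
  | refl => exact ⟨⟨hab, hbc, hca⟩, .refl, .refl⟩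
  | @tail r s _ hrs ih =>
    obtain ⟨⟨h1, h2, h3⟩, h4, h5⟩ := ih
    obtain ⟨r1, r2⟩ := r
    obtain ⟨s1, s2⟩ := s
    obtain ⟨h6, h7⟩ := tri hP hA hI h1 h2 h3 hrs
    exact ⟨⟨hP _ _ hrs h1, hP _ _ h6 h2, hP _ _ h7 h3⟩, h4.tail h6, h5.tail h7⟩

end

/-! ### The lexicographic orientation -/

/-- the pair in increasing order, in the lexicographic order -/
def key (p : ℕ × ℕ) : ℕ ×ₗ ℕ := toLex (min p.1 p.2, max p.1 p.2)

theorem key_swap (p : ℕ × ℕ) : key p.swap = key p := by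
  unfold key
  rw [Prod.fst_swap, Prod.snd_swap, min_comm, max_comm]

/-- A pair is positive if the smallest pair of its class is increasing. -/
def Pos (E : List (List ℕ)) (p : ℕ × ℕ) : Prop :=
  Step E p p ∧ ∃ q, ReflTransGen (Step E) p q ∧ q.1 < q.2 ∧
    ∀ r, ReflTransGen (Step E) p r → key q ≤ key r

theorem rtg_symm {E : List (List ℕ)} {p q : ℕ × ℕ} (h : ReflTransGen (Step E) p q) :
    ReflTransGen (Step E) q p := by
  induction h with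
  | refl => exact .refl
  | tail _ h ih => exact (ReflTransGen.single h.symm).trans ih

theorem rtg_swap {E : List (List ℕ)} {p q : ℕ × ℕ} (h : ReflTransGen (Step E) p q) :
    ReflTransGen (Step E) p.swap q.swap := by
  induction h with
  | refl => exact .refl
  | tail _ h ih => exact ih.tail h.swap

theorem Step.ne {E : List (List ℕ)} {p : ℕ × ℕ} (h : Step E p p) : p.1 ≠ p.2 := by
  obtain ⟨H, -, L, -, ⟨h1, h2, h3, h4⟩, -⟩ := h
  intro he
  rw [he] at h2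
  exact h2 h3

theorem pos_step {E : List (List ℕ)} (p q : ℕ × ℕ) (h : Step E p q) (hp : Pos E p) :
    Pos E q := by
  obtain ⟨-, r, h1, h2, h3⟩ := hp
  have hq : ReflTransGen (Step E) q p := .single h.symm
  exact ⟨h.symm.refl_left, r, hq.trans h1, h2, fun s hs => h3 s ((ReflTransGen.single h).trans hs)⟩

/-- No class contains a pair and its reversal. -/
def NoConflict (E : List (List ℕ)) : Prop :=
  ∀ a b, Step E (a, b) (a, b) → ¬ ReflTransGen (Step E) (a, b) (b, a)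

theorem key_inj {p q : ℕ × ℕ} (hp : p.1 < p.2) (hq : q.1 < q.2) (h : key p = key q) : p = q := by
  unfold key at h
  rw [min_eq_left hp.le, max_eq_right hp.le, min_eq_left hq.le, max_eq_right hq.le] at h
  exact h

theorem pos_antisymm {E : List (List ℕ)} (hE : NoConflict E) (a b : ℕ) (h : Pos E (a, b)) :
    ¬ Pos E (b, a) := by
  intro h'
  obtain ⟨h0, q, h1, h2, h3⟩ := h
  obtain ⟨-, q', h1', h2', h3'⟩ := h'
  have e1 : key q ≤ key q' := by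
    rw [← key_swap q']
    exact h3 _ (rtg_swap h1')
  have e2 : key q' ≤ key q := by
    rw [← key_swap q]
    exact h3' _ (rtg_swap h1)
  have e3 : q = q' := key_inj h2 h2' (le_antisymm e1 e2)
  subst e3
  exact hE a b h0 (h1.trans (rtg_symm h1'))

theorem step_of_rtg {E : List (List ℕ)} {p q : ℕ × ℕ} (h0 : Step E p p)
    (h : ReflTransGen (Step E) p q) : Step E q q := by
  induction h with
  | refl => exact h0
  | tail _ h _ => exact h.symm.refl_left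

theorem pos_or {E : List (List ℕ)} (p : ℕ × ℕ) (h : Step E p p) : Pos E p ∨ Pos E p.swap := by
  obtain ⟨k, ⟨q, hq, rfl⟩, hmin⟩ := WellFounded.has_min (wellFounded_lt (α := ℕ ×ₗ ℕ))
    {k | ∃ q, ReflTransGen (Step E) p q ∧ key q = k} ⟨_, p, .refl, rfl⟩
  have hmin' : ∀ r, ReflTransGen (Step E) p r → key q ≤ key r := by
    intro r hr
    by_contra hcon
    exact hmin (key r) ⟨r, hr, rfl⟩ (not_le.1 hcon)
  have hne := (step_of_rtg h hq).ne
  rcases lt_or_gt_of_ne hne with hlt | hlt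
  · exact Or.inl ⟨h, q, hq, hlt, hmin'⟩
  · refine Or.inr ⟨h.swap, q.swap, rtg_swap hq, hlt, fun r hr => ?_⟩
    rw [key_swap, ← key_swap r]
    refine hmin' _ ?_
    have := rtg_swap hr
    rwa [Prod.swap_swap] at this

/-- There is no cyclic triple. -/
theorem no_cycle {E : List (List ℕ)} (hE : NoConflict E) {a b c : ℕ} (hab : Pos E (a, b))
    (hbc : Pos E (b, c)) (hca : Pos E (c, a)) : False := by
  -- the minimal pair of the class of `(a, b)`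
  have main : ∀ a b c : ℕ, Pos E (a, b) → Pos E (b, c) → Pos E (c, a) →
      ∀ q r, ReflTransGen (Step E) (a, b) q → q.1 < q.2 →
        (∀ s, ReflTransGen (Step E) (a, b) s → key q ≤ key s) →
      ReflTransGen (Step E) (c, a) r → r.1 < r.2 →
        (∀ s, ReflTransGen (Step E) (c, a) s → key r ≤ key s) → key q ≤ key r → False := by
    intro a b c hab hbc hca q r hq hq2 hq3 hr hr2 hr3 hqr
    obtain ⟨⟨h1, h2, h3⟩, h4, h5⟩ := tri_class pos_step (pos_antisymm hE) (fun p h => h.1)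
      hab hbc hca hq
    obtain ⟨q1, q2⟩ := q
    obtain ⟨r1, r2⟩ := r
    simp only at hq2 hr2 h1 h2 h3 h4 h5
    have e1 : q1 ≤ r1 := by
      have h6 := hqr
      unfold key at h6
      simp only at h6
      rw [min_eq_left hq2.le, max_eq_right hq2.le, min_eq_left hr2.le, max_eq_right hr2.le,
        Prod.Lex.toLex_le_toLex] at h6
      rcases h6 with h6 | h6
      · exact h6.le
      · exact h6.1.le
    have e2 : r1 ≤ q1 := by
      have h6 := hr3 _ h5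
      unfold key at h6
      simp only at h6
      rw [min_eq_left hr2.le, max_eq_right hr2.le, Prod.Lex.toLex_le_toLex] at h6
      rcases h6 with h6 | h6
      · exact h6.le.trans (min_le_right _ _)
      · exact h6.1.le.trans (min_le_right _ _)
    have e3 : r1 = q1 := le_antisymm e2 e1
    subst e3
    -- now `(r1, r2)` is in the class of `(c, r1)`
    have h6 : ReflTransGen (Step E) (c, r1) (r1, r2) := (rtg_symm h5).trans hr
    obtain ⟨⟨h7, h8, h9⟩, -⟩ := tri_class pos_step (pos_antisymm hE) (fun p h => h.1)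
      h3 h1 h2 h6
    simp only at h7 h8 h9
    exact pos_antisymm hE _ _ h1 h9
  have pick : ∀ p, Pos E p → ∃ q, ReflTransGen (Step E) p q ∧ q.1 < q.2 ∧
      ∀ s, ReflTransGen (Step E) p s → key q ≤ key s := fun p h => h.2
  obtain ⟨x, x1, x2, x3⟩ := pick _ hab
  obtain ⟨y, y1, y2, y3⟩ := pick _ hbc
  obtain ⟨z, z1, z2, z3⟩ := pick _ hca
  rcases le_total (key x) (key z) with h | h
  · exact main a b c hab hbc hca x z x1 x2 x3 z1 z2 z3 h
  · rcases le_total (key z) (key y) with h' | h'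
    · exact main c a b hca hab hbc z y z1 z2 z3 y1 y2 y3 h'
    · exact main b c a hbc hca hab y x y1 y2 y3 x1 x2 x3 (h'.trans h)

theorem pos_trans {E : List (List ℕ)} (hE : NoConflict E) {a b c : ℕ} (hab : Pos E (a, b))
    (hbc : Pos E (b, c)) : Pos E (a, c) := by
  have hac : Step E (a, c) (a, c) := by
    by_contra hcon
    obtain ⟨H, hH, L, hL, ⟨h1, h2, h3, h4⟩, -⟩ := hab.1
    obtain ⟨H', hH', L', hL', ⟨h1', h2', h3', h4'⟩, -⟩ := hbc.1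
    simp only at h1 h2 h3 h4 h1' h2' h3' h4'
    have key1 : (∀ A ∈ E, a ∈ A → c ∈ A) ∨ ∀ A ∈ E, c ∈ A → a ∈ A := by
      by_contra hk
      push Not at hk
      obtain ⟨⟨A, hA, hA1, hA2⟩, B, hB, hB1, hB2⟩ := hk
      exact hcon ⟨A, hA, B, hB, ⟨hA1, hB2, hB1, hA2⟩, hA1, hB2, hB1, hA2⟩
    rcases key1 with hk | hk
    · have e1 : c ∈ H := hk H hH h1
      have e2 : a ∉ H' := fun h => h4' (hk H' hH' h)
      exact pos_antisymm hE _ _ hbc (pos_step _ _ ⟨H, hH, H', hH', ⟨h1, e2, h1', h4⟩,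
        e1, h4', h1', h4⟩ hab)
    · have e1 : a ∈ L' := hk L' hL' h3'
      have e2 : c ∉ L := fun h => h2 (hk L hL h)
      exact pos_antisymm hE _ _ hbc (pos_step _ _ ⟨L', hL', L, hL, ⟨e1, h2, h3, h2'⟩,
        h3', e2, h3, h2'⟩ hab)
  rcases pos_or _ hac with h | h
  · exact h
  · exact (no_cycle hE hab hbc h).elim

end Pool.Agent.X245.ABA
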