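import Pool.Agent.X245.ABA.Core

set_option autoImplicit false

/-!
# ABA-free hypergraphs: orderings
-/

namespace Pool.Agent.X245.ABA

open Relation

/-- In the ordering `π` the vertex `x` comes before the vertex `y`. -/
def Before (π : List ℕ) (x y : ℕ) : Prop := π.idxOf x < π.idxOf y

/-- The pair `(H, L)` of hyperedges forms an ABA pattern under `π`: there are `a, c` in `H` but not in
`L` and `b` in `L` but not in `H` which appear in the order `a, b, c`. -/
def Pattern (π : List ℕ) (H L : List ℕ) : Prop :=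
  ∃ a b c, (a ∈ H ∧ a ∉ L) ∧ (b ∈ L ∧ b ∉ H) ∧ (c ∈ H ∧ c ∉ L) ∧ Before π a b ∧ Before π b c

/-- Some ordering of the vertices is free of ABA patterns. -/
def ABAFree (V : List ℕ) (E : List (List ℕ)) : Prop :=
  ∃ π : List ℕ, π.Perm V ∧ ∀ H ∈ E, ∀ L ∈ E, ¬ Pattern π H L

theorem before_total {π : List ℕ} {x y : ℕ} (hx : x ∈ π) (hxy : x ≠ y) :
    Before π x y ∨ Before π y x := by
  unfold Before
  rcases lt_trichotomy (π.idxOf x) (π.idxOf y) with h | h | h
  · exact Or.inl h
  · exact absurd ((List.idxOf_inj hx).1 h) hxy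
  · exact Or.inr h

theorem noConflict_of_free {V : List ℕ} {E : List (List ℕ)} (hE : ∀ H ∈ E, ∀ v ∈ H, v ∈ V)
    (h : ABAFree V E) : NoConflict E := by
  obtain ⟨π, hπ, hfree⟩ := h
  have hmem : ∀ H ∈ E, ∀ v ∈ H, v ∈ π := fun H hH v hv => hπ.mem_iff.2 (hE H hH v hv)
  have hstep : ∀ p q : ℕ × ℕ, Step E p q → Before π p.1 p.2 → Before π q.1 q.2 := by
    rintro ⟨a, b⟩ ⟨a', b'⟩ ⟨H, hH, L, hL, ⟨h1, h2, h3, h4⟩, h5, h6, h7, h8⟩ hlt
    simp only at h1 h2 h3 h4 h5 h6 h7 h8 hlt ⊢
    have e1 : Before π a' b := by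
      rcases before_total (π := π) (hmem H hH a' h5) (fun h => h6 (h ▸ h3) : a' ≠ b) with h | h
      · exact h
      · exact (hfree H hH L hL ⟨a, b, a', ⟨h1, h2⟩, ⟨h3, h4⟩, ⟨h5, h6⟩, hlt, h⟩).elim
    rcases before_total (π := π) (hmem H hH a' h5) (fun h => h6 (h ▸ h7) : a' ≠ b') with h | h
    · exact h
    · exact (hfree L hL H hH ⟨b', a', b, ⟨h7, h8⟩, ⟨h5, h6⟩, ⟨h3, h4⟩, h, e1⟩).elim
  have hrtg : ∀ p q : ℕ × ℕ, ReflTransGen (Step E) p q → Before π p.1 p.2 →
      Before π q.1 q.2 := by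
    intro p q h
    induction h with
    | refl => exact id
    | tail _ h ih => exact fun h' => hstep _ _ h (ih h')
  intro a b h1 h2
  have hne := h1.ne
  obtain ⟨H, hH, L, hL, ⟨h3, -, -, -⟩, -⟩ := h1
  rcases before_total (π := π) (hmem H hH a h3) hne with h | h
  · exact absurd (hrtg _ _ h2 h) (lt_asymm h)
  · exact absurd (hrtg _ _ (rtg_swap h2) h) (lt_asymm h)

theorem free_of_noConflict {V : List ℕ} {E : List (List ℕ)} (hE : ∀ H ∈ E, ∀ v ∈ H, v ∈ V)
    (h : NoConflict E) : ABAFree V E := by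
  classical
  obtain ⟨r, hr⟩ : ∃ r : ℕ → ℕ → Prop, r = fun a b => a = b ∨ Pos E (a, b) := ⟨_, rfl⟩
  have hpo : IsPartialOrder ℕ r :=
    { refl := fun a => by rw [hr]; exact Or.inl rfl
      trans := fun a b c hab hbc => by
        rw [hr] at hab hbc ⊢
        rcases hab with rfl | hab
        · exact hbc
        · rcases hbc with rfl | hbc
          · exact Or.inr hab
          · exact Or.inr (pos_trans h hab hbc)
      antisymm := fun a b hab hba => by
        rw [hr] at hab hba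
        rcases hab with rfl | hab
        · rfl
        · rcases hba with rfl | hba
          · rfl
          · exact (pos_antisymm h _ _ hab hba).elim }
  obtain ⟨s, hs, hrs⟩ := extend_partialOrder r
  refine ⟨V.insertionSort s, List.perm_insertionSort s V, ?_⟩
  rintro H hH L hL ⟨a, b, c, ⟨a1, a2⟩, ⟨b1, b2⟩, ⟨c1, c2⟩, hab, hbc⟩
  have hsort := List.pairwise_insertionSort s V
  have hlt : ∀ x y, x ∈ V → y ∈ V → Before (V.insertionSort s) x y → s x y := by
    intro x y hx hy hxy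
    rw [← List.mem_insertionSort (r := s)] at hx hy
    have hx' := List.idxOf_lt_length_of_mem hx
    have hy' := List.idxOf_lt_length_of_mem hy
    have := List.pairwise_iff_getElem.1 hsort _ _ hx' hy' hxy
    simpa using this
  have sab := hlt a b (hE H hH a a1) (hE L hL b b1) hab
  have sbc := hlt b c (hE L hL b b1) (hE H hH c c1) hbc
  have hpos : ∀ x y, Pos E (x, y) → s x y := fun x y hxy => hrs x y (by rw [hr]; exact Or.inr hxy)
  have hst : Step E (a, b) (c, b) := ⟨H, hH, L, hL, ⟨a1, a2, b1, b2⟩, c1, c2, b1, b2⟩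
  rcases pos_or (a, b) hst.refl_left with h1 | h1
  · have h2 := hpos _ _ (pos_step _ _ hst h1)
    have h3 : b = c := hs.antisymm _ _ sbc h2
    exact c2 (h3 ▸ b1)
  · have h2 := hpos _ _ h1
    have h3 : a = b := hs.antisymm _ _ sab h2
    exact a2 (h3 ▸ b1)

theorem free_iff {V : List ℕ} {E : List (List ℕ)} (hE : ∀ H ∈ E, ∀ v ∈ H, v ∈ V) :
    ABAFree V E ↔ NoConflict E :=
  ⟨noConflict_of_free hE, free_of_noConflict hE⟩

end Pool.Agent.X245.ABA
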